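import Mathlib
import Pool.Agent.TH456.TM.Fam
import Pool.Agent.TH456.TM.AlgDep
import Pool.Agent.TH456.TM.E

/-!
# Algebraic near relations for `π + e` and `π - e`

Lindemann's theorem shows that `π + e` and `π - e` are not both algebraic. We prove unconditional
quantitative versions, for polynomials of arbitrary degree and for all translates together; they do not
distinguish between algebraic numbers and numbers very well approximable by algebraic numbers.

Let `θ` be one of `π`, `e`, and let `u_1, …, u_m` be complex numbers algebraic over `ℚ(θ)` with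
transcendental differences. For every `D` there is an exponent `κ` such that for every complex number `s`:

(1) for `i ≠ j` and all nonzero integer polynomials `P`, `Q` of degree `≤ D` and height `≤ H`, and also for
`i = j` and different irreducible `P`, `Q`, the values `P(s + u_i)` and `Q(s + u_j)` are not both smaller than
`C H^(-κ)`, with `C` depending only on `D`, the `u_i` and a bound for `|s|`;

(2) the near relations of all the numbers `s + u_i` together are sparse: there are at most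
`log log X / log ρ + C` pairs `(i, P)`, `P` irreducible of degree `≤ D` and height `≤ X`, with
`|P(s + u_i)| ≤ height(P)^(-w)`; here `w > κ` and `1 < ρ < w / κ` are arbitrary.

With `θ = e`, `s = π` this covers `π + k e` (`k` in a finite set of integers), in particular `π + e` and `π - e`;
with `θ = π`, `s = e` it covers the numbers `e + k π`.
-/

set_option autoImplicit false

namespace Pool.Agent.Results.MP_363d4d_nt.AlgebraicNearRelations

open Polynomial Pool.Agent.TH456.TM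

/-- The height of an integer polynomial: the largest absolute value of a coefficient. -/
noncomputable def height (P : ℤ[X]) : ℕ := P.support.sup fun i => (P.coeff i).natAbs

/-- The irreducible integer polynomials of degree at most `D`, with positive leading coefficient
(one of `P` and `-P`). -/
def Irr (D : ℕ) : Set ℤ[X] := {P | Irreducible P ∧ P.natDegree ≤ D ∧ 0 < P.leadingCoeff}

/-- The numbers `u i` are algebraic over `ℤ[θ]` (the same as over `ℚ(θ)`), and their differences are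
transcendental. -/
def Spread (θ : ℂ) {m : ℕ} (u : Fin m → ℂ) : Prop :=
  (∀ i, IsAlgebraic (Algebra.adjoin ℤ ({θ} : Set ℂ)) (u i)) ∧
    ∀ i j, i ≠ j → Transcendental ℤ (u i - u j)

/-- The near relations `(i, P)` of exponent `w`, degree `≤ D` and height `≤ X` of the numbers
`s + u i`. -/
def Near {m : ℕ} (u : Fin m → ℂ) (s : ℂ) (D : ℕ) (w X : ℝ) : Set (Fin m × ℤ[X]) :=
  {p | p.2 ∈ Irr D ∧ (height p.2 : ℝ) ≤ X ∧ ‖aeval (s + u p.1) p.2‖ ≤ (height p.2 : ℝ) ^ (-w)}

/-- The quantitative statements (1) and (2). -/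
def Quantitative {m : ℕ} (u : Fin m → ℂ) : Prop :=
  ∀ D : ℕ, ∃ κ : ℝ, 0 < κ ∧
    (∀ T : ℝ, ∃ C : ℝ, 0 < C ∧ ∀ s : ℂ, ‖s‖ ≤ T → ∀ (i j : Fin m) (P Q : ℤ[X]),
      P ≠ 0 → Q ≠ 0 → P.natDegree ≤ D → Q.natDegree ≤ D →
      (i ≠ j ∨ (P ∈ Irr D ∧ Q ∈ Irr D ∧ P ≠ Q)) →
      ∀ H : ℝ, (height P : ℝ) ≤ H → (height Q : ℝ) ≤ H →
      C * H ^ (-κ) ≤ max ‖aeval (s + u i) P‖ ‖aeval (s + u j) Q‖) ∧
    (∀ (s : ℂ) (w ρ : ℝ), 1 < ρ → ρ < w / κ → ∃ C : ℝ, ∀ X : ℝ, 3 ≤ X →
      (Near u s D w X).Finite ∧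
      ((Near u s D w X).ncard : ℝ) ≤ Real.log (Real.log X) / Real.log ρ + C)

theorem quantitative {θ : ℂ} (hθ : MeasT θ) {m : ℕ} (u : Fin m → ℂ) (hu : Spread θ u) :
    Quantitative u := by
  intro D
  have hd : ∀ i ∈ (Finset.univ : Finset (Fin m)), ∀ j ∈ (Finset.univ : Finset (Fin m)), i ≠ j →
      MeasT (u j - u i) := fun i _ j _ hij =>
    measT_of_isAlgebraic hθ _ ((hu.1 j).sub (hu.1 i)) (hu.2 j i hij.symm)
  obtain ⟨κ, hκ, h⟩ := fam_add Finset.univ u hd θ hθ D
  refine ⟨κ, hκ, fun T => ?_, fun s w ρ hρ hρw => ?_⟩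
  · obtain ⟨C, hC, h1⟩ := h T
    refine ⟨C, hC, fun s hs i j P Q hP hQ hPD hQD hij H hPH hQH => ?_⟩
    by_cases hne : i = j
    · subst hne
      rcases hij with hij | ⟨hP', hQ', hPQ⟩
      · exact absurd rfl hij
      · exact (h1 s hs).2 i (Finset.mem_univ _) P hP' Q hQ' hPQ H hPH hQH
    · exact (h1 s hs).1 i (Finset.mem_univ _) j (Finset.mem_univ _) hne P Q hP hQ hPD hQD H hPH hQH
  · obtain ⟨C, hC, h1⟩ := h ‖s‖
    obtain ⟨C', h3⟩ := sparse_fam (Finset.univ : Finset (Fin m)) (fun k => s + u k) D κ hκ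
      ⟨C, hC, fun i hi j hj P hP Q hQ hne H hPH hQH => by
        by_cases hij : i = j
        · subst hij
          exact (h1 s le_rfl).2 i hi P hP Q hQ (fun h => hne (by rw [h])) H hPH hQH
        · exact (h1 s le_rfl).1 i hi j hj hij P Q hP.1.ne_zero hQ.1.ne_zero hP.2.1 hQ.2.1 H
            hPH hQH⟩ w ρ hρ hρw
    refine ⟨C', fun X hX => ?_⟩
    have h4 : Near u s D w X = {p ∈ NearF Finset.univ (fun k => s + u k) D w | (ht p.2 : ℝ) ≤ X} := by
      ext p
      constructor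
      · rintro ⟨b, c, d⟩
        exact ⟨⟨Finset.mem_univ _, b, d⟩, c⟩
      · rintro ⟨⟨_, b, d⟩, c⟩
        exact ⟨b, c, d⟩
    rw [h4]
    exact h3 X hX

/-- the multiples `k θ`, `k` integer -/
theorem spread_mul {θ : ℂ} (hθ : MeasT θ) {m : ℕ} (k : Fin m → ℤ) (hk : Function.Injective k) :
    Spread θ (fun i => (k i : ℂ) * θ) := by
  have h0 : IsAlgebraic (Algebra.adjoin ℤ ({θ} : Set ℂ)) θ :=
    isAlgebraic_algebraMap (⟨θ, Algebra.subset_adjoin rfl⟩ : Algebra.adjoin ℤ ({θ} : Set ℂ))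
  refine ⟨fun i => (isAlgebraic_intCast (k i)).mul h0, fun i j hij => ?_⟩
  have h1 : (k i : ℂ) * θ - (k j : ℂ) * θ = ((k i - k j : ℤ) : ℂ) * θ := by
    push_cast; ring
  simp only [h1]
  have h2 : (k i - k j : ℤ) ≠ 0 := sub_ne_zero.2 fun h => hij (hk h)
  rw [mul_comm]
  exact transcendental_of_measT
    (measT_mul_alg hθ ((k i - k j : ℤ) : ℂ) (isAlgebraic_intCast _) (by exact_mod_cast h2))

/-- **Near relations of translates**, and the numbers `π + e`, `π - e`. -/
theorem result :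
    (∀ θ : ℂ, (θ = (Real.pi : ℂ) ∨ θ = ((Real.exp 1 : ℝ) : ℂ)) → ∀ (m : ℕ) (u : Fin m → ℂ),
      Spread θ u → Quantitative u) ∧
    (∀ θ : ℂ, (θ = (Real.pi : ℂ) ∨ θ = ((Real.exp 1 : ℝ) : ℂ)) → ∀ (m : ℕ) (k : Fin m → ℤ),
      Function.Injective k → Quantitative (fun i => (k i : ℂ) * θ)) ∧
    (∀ D : ℕ, ∃ κ C : ℝ, 0 < κ ∧ 0 < C ∧ ∀ P Q : ℤ[X], P ≠ 0 → Q ≠ 0 →
      P.natDegree ≤ D → Q.natDegree ≤ D → ∀ H : ℝ, (height P : ℝ) ≤ H → (height Q : ℝ) ≤ H →
      C * H ^ (-κ) ≤ max |aeval (Real.pi + Real.exp 1) P| |aeval (Real.pi - Real.exp 1) Q|) := by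
  have hm : ∀ θ : ℂ, (θ = (Real.pi : ℂ) ∨ θ = ((Real.exp 1 : ℝ) : ℂ)) → MeasT θ := by
    rintro θ (rfl | rfl)
    · exact measT_pi
    · exact measT_e
  have h2 : ∀ θ : ℂ, (θ = (Real.pi : ℂ) ∨ θ = ((Real.exp 1 : ℝ) : ℂ)) → ∀ (m : ℕ) (k : Fin m → ℤ),
      Function.Injective k → Quantitative (fun i => (k i : ℂ) * θ) :=
    fun θ hθ m k hk => quantitative (hm θ hθ) _ (spread_mul (hm θ hθ) k hk)
  refine ⟨fun θ hθ m u hu => quantitative (hm θ hθ) u hu, h2, fun D => ?_⟩
  obtain ⟨κ, hκ, h3, -⟩ := h2 _ (Or.inr rfl) 2 ![1, -1] (by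
    intro i j h
    fin_cases i <;> fin_cases j <;> simp_all) D
  obtain ⟨C, hC, h4⟩ := h3 ‖(Real.pi : ℂ)‖
  refine ⟨κ, C, hκ, hC, fun P Q hP hQ hPD hQD H hPH hQH => ?_⟩
  have h5 := h4 (Real.pi : ℂ) le_rfl 0 1 P Q hP hQ hPD hQD (Or.inl (by decide)) H hPH hQH
  rw [abs_aeval, abs_aeval]
  convert h5 using 4
  · push_cast
    simp
  · push_cast
    simp [sub_eq_add_neg]

end Pool.Agent.Results.MP_363d4d_nt.AlgebraicNearRelations
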