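import Mathlib
import Pool.Agent.X2.AdicJoint
import Pool.Agent.W47.LC.EBound

/-!
# The `b`-adic complexity of the digits of `π + e` and `π - e`, read backwards

No hypothesis is assumed.  Let `λ(x; m, n)` be the `b`-adic complexity of the word formed by the digits of `x`
at the places `m + n, m + n - 1, …, m + 1` in base `b` (the logarithm to the base `b` of the size of the smallest
rational number, with denominator prime to `b`, whose `b`-adic expansion begins with this word; it is the
complexity of the word with respect to feedback shift registers with carry).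

* For a rational number `x` the complexities `λ(x; m, n)`, `m ≥ m₀`, are bounded, uniformly in `n`.
* `λ(π + e; m, n) + λ(π - e; m, n) ≥ (n - m) / 2 - C log (m + n + 2)`, with a constant `C` which does not depend on
  the base; so for every `m` and `n` one of the two complexities is at least `(n - m) / 4 - C log (m + n + 2)`.
* More generally this holds for the sum of the complexities of any finite family of real numbers `x i` such that
  `e` is a rational linear combination of `1` and the `x i`.
-/

set_option autoImplicit false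

namespace Pool.Agent.Results.MP_363d4d_nt.JointAdicComplexity

open Finset

/-- the `k`-th digit of `x` after the point in base `b` -/
noncomputable def digit (b : ℕ) (x : ℝ) (k : ℕ) : ℤ := ⌊x * (b : ℝ) ^ k⌋ % (b : ℤ)

/-- the least `M` such that the `b`-adic expansion of some rational number `f / g`, with `g > 0` prime
to `b` and `|f| ≤ M`, `g ≤ M`, begins with the letters `c 0, c 1, …, c (n - 1)`, that is
`f / g ≡ ∑_{i < n} c i b ^ i` modulo `b ^ n` -/
noncomputable def size (b n : ℕ) (c : ℕ → ℤ) : ℕ :=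
  sInf {M : ℕ | ∃ f g : ℤ, 0 < g ∧ Int.gcd g b = 1 ∧
    (b : ℤ) ^ n ∣ g * (∑ i ∈ range n, c i * (b : ℤ) ^ i) - f ∧ |f| ≤ M ∧ g ≤ M}

/-- the `b`-adic complexity of the digits of `x` in base `b` at the places `m + n, m + n - 1, …, m + 1`, in this
order -/
noncomputable def complexity (b : ℕ) (x : ℝ) (m n : ℕ) : ℝ :=
  Real.logb b (size b n (fun i => digit b x (m + n - i)))

/-- **The `b`-adic complexities of the digits of `π + e` and `π - e`, read backwards.** -/
theorem result :
    -- the sum for `π + e` and `π - e`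
    (∃ C : ℝ, ∀ b : ℕ, 2 ≤ b → ∀ m n : ℕ,
      ((n : ℝ) - m) / 2 - C * Real.log (m + n + 2) ≤
        complexity b (Real.pi + Real.exp 1) m n + complexity b (Real.pi - Real.exp 1) m n) ∧
    -- families of numbers with a linear relation with `e`
    (∀ (r : ℕ) (x : Fin r → ℝ) (α : Fin r → ℤ) (γ δ : ℤ), γ ≠ 0 →
      ∑ i, (α i : ℝ) * x i = γ * Real.exp 1 + δ →
      ∃ C : ℝ, ∀ b : ℕ, 2 ≤ b → ∀ m n : ℕ,
        ((n : ℝ) - m) / 2 - C * Real.log (m + n + 2) ≤ ∑ i, complexity b (x i) m n) ∧
    -- rational numbers have bounded complexity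
    (∀ x : ℝ, ¬ Irrational x → ∀ b : ℕ, 2 ≤ b → ∃ (m₀ : ℕ) (C : ℝ), ∀ m n : ℕ, m₀ ≤ m →
      complexity b x m n ≤ C) := by
  have hE : ∀ q : ℕ, 1 ≤ q → ∀ p : ℤ,
      (1 / 1000 : ℝ) ≤ (q : ℝ) * (1 + Real.log q) * |q * Real.exp 1 - p| := by
    intro q hq p
    have := Pool.Agent.W47.LC.eBound q hq p
    rw [pow_one] at this
    exact this
  have hgen : ∀ (r : ℕ) (x : Fin r → ℝ) (α : Fin r → ℤ) (γ δ : ℤ), γ ≠ 0 →
      ∑ i, (α i : ℝ) * x i = γ * Real.exp 1 + δ →
      ∃ C : ℝ, ∀ b : ℕ, 2 ≤ b → ∀ m n : ℕ,
        ((n : ℝ) - m) / 2 - C * Real.log (m + n + 2) ≤ ∑ i, complexity b (x i) m n :=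
    fun r x α γ δ hγ hrel => Pool.Agent.X2.AdicJoint.joint x α γ δ hγ hrel hE
  refine ⟨?_, hgen, ?_⟩
  · obtain ⟨C, hC⟩ := hgen 2 ![Real.pi + Real.exp 1, Real.pi - Real.exp 1] ![1, -1] 2 0 (by norm_num)
      (by simp [Fin.sum_univ_two]; ring)
    refine ⟨C, fun b hb m n => ?_⟩
    have := hC b hb m n
    rw [Fin.sum_univ_two] at this
    simpa using this
  · intro x hx b hb
    obtain ⟨m₀, M, h⟩ := Pool.Agent.X2.AdicJoint.rational hx b hb
    refine ⟨m₀, Real.logb b M, fun m n hm => ?_⟩
    have h1 := h m n hm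
    have hbR : (1 : ℝ) < b := by exact_mod_cast (by omega : 1 < b)
    have h2 : 1 ≤ size b n (fun i => digit b x (m + n - i)) :=
      Pool.Agent.X2.AdicJoint.size_pos n _
    unfold complexity
    apply Real.logb_le_logb_of_le hbR
    · exact_mod_cast h2
    · exact_mod_cast h1

end Pool.Agent.Results.MP_363d4d_nt.JointAdicComplexity
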