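import Mathlib
import Pool.Agent.H43R2.Cplx.EFinal2

/-!
# Blocks of the digits of `π + e` and `π - e`

Let `x_1, …, x_m` be real numbers and `A_1, …, A_m` integers such that `A_1 x_1 + … + A_m x_m = r e + s` with rational
numbers `r ≠ 0`, `s`. For every base `b ≥ 2` consider the sequence of integers
`w_i = A_1 d_i(x_1) + … + A_m d_i(x_m)`, where `d_i(x)` is the `i`-th digit of `x` in base `b`. The number `p(n)` of
different blocks of `n` consecutive terms of this sequence satisfies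

`liminf p(n) / n ≥ 5 / 4` and `limsup p(n) / n ≥ 3 / 2`.

In particular this holds for the differences `d_i(π + e) - d_i(π - e)` of the digits of `π + e` and `π - e`, and so for
the pairs of digits `(d_i(π + e), d_i(π - e))`; more generally for `t + r e`, `t + s e` with every real `t` and rational
`r ≠ s`. If both `π + e` and `π - e` were rational then `p(n)` would be bounded.

The proof uses the combinatorial theorems `liminf_of_rep`, `limsup_of_rep` of the library.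
-/

set_option autoImplicit false

namespace Pool.Agent.Results.MP_363d4d_nt.JointBlocks

open Filter Pool.Agent.H43R2.Cplx

/-- the digit number `i + 1` after the point of the real number `x` in base `b` -/
noncomputable def digit (b : ℕ) (x : ℝ) (i : ℕ) : ℤ := ⌊x * (b : ℝ) ^ (i + 1)⌋ % (b : ℤ)

/-- the number of different blocks of `n` consecutive terms of a sequence -/
noncomputable def blocks {α : Type} (w : ℕ → α) (n : ℕ) : ℕ :=
  (Set.range fun i => fun j : Fin n => w (i + j)).ncard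

/-- `liminf p(n) / n ≥ 5 / 4` and `limsup p(n) / n ≥ 3 / 2` -/
def Large (p : ℕ → ℕ) : Prop :=
  (∀ c : ℝ, c < 5 / 4 → ∀ᶠ n : ℕ in atTop, c * n < p n) ∧
    ∀ c : ℝ, c < 3 / 2 → ∃ᶠ n : ℕ in atTop, c * n < p n

theorem floor_succ (b : ℕ) (hb : 2 ≤ b) (x : ℝ) (m : ℕ) :
    ⌊x * (b : ℝ) ^ (m + 1)⌋ = b * ⌊x * (b : ℝ) ^ m⌋ + digit b x m := by
  have hb0 : (b : ℝ) ≠ 0 := by
    have : (2 : ℝ) ≤ b := by exact_mod_cast hb
    linarith
  have h1 : ⌊x * (b : ℝ) ^ m⌋ = ⌊x * (b : ℝ) ^ (m + 1)⌋ / (b : ℤ) := by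
    have h := Int.floor_div_natCast (x * (b : ℝ) ^ (m + 1)) b
    rw [← h]
    congr 1
    rw [pow_succ, ← mul_assoc, mul_div_cancel_right₀ _ hb0]
  rw [h1]
  unfold digit
  exact (Int.mul_ediv_add_emod _ _).symm

theorem digit_abs (b : ℕ) (hb : 2 ≤ b) (x : ℝ) (i : ℕ) : |digit b x i| ≤ b := by
  unfold digit
  have hb0 : (0 : ℤ) < b := by exact_mod_cast (by omega : 0 < b)
  rw [abs_of_nonneg (Int.emod_nonneg _ hb0.ne')]
  exact (Int.emod_lt_of_pos _ hb0).le

/-- the exponent of `r e + s` -/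
theorem exp2_lin (r s : ℚ) (hr : r ≠ 0) : Exp2 ((r : ℝ) * Real.exp 1 + s) := by
  intro ε hε
  obtain ⟨c, hc, h⟩ := exp2_e ε hε
  obtain ⟨B, hB⟩ : ∃ B : ℕ, B = r.den * s.den := ⟨_, rfl⟩
  obtain ⟨R, hR⟩ : ∃ R : ℤ, R = r.num * s.den := ⟨_, rfl⟩
  obtain ⟨S, hS⟩ : ∃ S : ℤ, S = s.num * r.den := ⟨_, rfl⟩
  have hrd : (r : ℝ) * r.den = r.num := by exact_mod_cast Rat.mul_den_eq_num r
  have hsd : (s : ℝ) * s.den = s.num := by exact_mod_cast Rat.mul_den_eq_num s
  have hBr : (B : ℝ) * r = R := by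
    rw [hB, hR]; push_cast; rw [← hrd]; ring
  have hBs : (B : ℝ) * s = S := by
    rw [hB, hS]; push_cast; rw [← hsd]; ring
  have hB1 : 1 ≤ B := by
    rw [hB]; exact Nat.mul_pos r.den_pos s.den_pos
  have hB1' : (1 : ℝ) ≤ B := by exact_mod_cast hB1
  have hR0 : R ≠ 0 := by
    rw [hR]
    exact mul_ne_zero (Rat.num_ne_zero.2 hr) (by exact_mod_cast s.den_nz)
  obtain ⟨N, hN⟩ : ∃ N : ℕ, N = R.natAbs := ⟨_, rfl⟩
  have hN1 : 1 ≤ N := by rw [hN]; exact Int.natAbs_pos.2 hR0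
  have hN1' : (1 : ℝ) ≤ N := by exact_mod_cast hN1
  obtain ⟨σ, hσ, hσR⟩ : ∃ σ : ℤ, (σ = 1 ∨ σ = -1) ∧ R = σ * N := by
    rcases Int.natAbs_eq R with h1 | h1
    · exact ⟨1, Or.inl rfl, by rw [hN, one_mul]; exact h1⟩
    · exact ⟨-1, Or.inr rfl, by rw [hN, neg_one_mul]; exact h1⟩
  have hσ2 : (σ : ℝ) * σ = 1 := by
    rcases hσ with h1 | h1 <;> rw [h1] <;> norm_num
  have hσa : |(σ : ℝ)| = 1 := by
    rcases hσ with h1 | h1 <;> rw [h1] <;> norm_num
  have hNp : 0 < (N : ℝ) ^ (1 + ε) := Real.rpow_pos_of_pos (by linarith) _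
  refine ⟨c / ((N : ℝ) ^ (1 + ε) * B), by positivity, fun q hq m => ?_⟩
  have hq1 : (1 : ℝ) ≤ q := by exact_mod_cast hq
  have h1 := h (q * N) (Nat.mul_pos (by omega) (by omega)) (σ * (B * m - q * S))
  have e1 : ((q * N : ℕ) : ℝ) * Real.exp 1 - ((σ * (B * m - q * S) : ℤ) : ℝ) =
      σ * (B * (q * ((r : ℝ) * Real.exp 1 + s) - m)) := by
    have hRR : (R : ℝ) = σ * N := by exact_mod_cast hσR
    have : (B : ℝ) * (q * ((r : ℝ) * Real.exp 1 + s) - m) =
        q * (R * Real.exp 1 + S) - B * m := by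
      rw [← hBr, ← hBs]; ring
    rw [this, hRR]
    push_cast
    linear_combination (-(q : ℝ) * N * Real.exp 1) * hσ2
  rw [e1, abs_mul, hσa, one_mul, abs_mul, abs_of_pos (by linarith : (0 : ℝ) < B)] at h1
  have e2 : ((q * N : ℕ) : ℝ) ^ (1 + ε) = (q : ℝ) ^ (1 + ε) * (N : ℝ) ^ (1 + ε) := by
    push_cast
    exact Real.mul_rpow (by linarith) (by linarith)
  rw [e2] at h1
  rw [div_le_iff₀ (by positivity)]
  calc c ≤ (q : ℝ) ^ (1 + ε) * (N : ℝ) ^ (1 + ε) * (B * |q * ((r : ℝ) * Real.exp 1 + s) - m|) := h1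
    _ = _ := by ring

/-- the sequence `A_1 d_i(x_1) + … + A_m d_i(x_m)` -/
noncomputable def comb (b : ℕ) {m : ℕ} (A : Fin m → ℤ) (x : Fin m → ℝ) (i : ℕ) : ℤ :=
  ∑ j, A j * digit b (x j) i

/-- the integers `A_1 ⌊x_1 b^k⌋ + … + A_m ⌊x_m b^k⌋` -/
noncomputable def cfl (b : ℕ) {m : ℕ} (A : Fin m → ℤ) (x : Fin m → ℝ) (k : ℕ) : ℤ :=
  ∑ j, A j * ⌊x j * (b : ℝ) ^ k⌋

theorem cfl_succ (b : ℕ) (hb : 2 ≤ b) {m : ℕ} (A : Fin m → ℤ) (x : Fin m → ℝ) (k : ℕ) :
    cfl b A x (k + 1) = b * cfl b A x k + comb b A x k := by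
  unfold cfl comb
  rw [Finset.mul_sum, ← Finset.sum_add_distrib]
  refine Finset.sum_congr rfl fun j _ => ?_
  rw [floor_succ b hb]
  ring

theorem cfl_diff (b : ℕ) (hb : 2 ≤ b) {m : ℕ} (A : Fin m → ℤ) (x : Fin m → ℝ) {i j n : ℕ}
    (h : E (comb b A x) n i j) :
    cfl b A x (i + n) - b ^ n * cfl b A x i = cfl b A x (j + n) - b ^ n * cfl b A x j := by
  induction n with
  | zero => simp
  | succ n ih =>
    have h1 := ih (h.mono (by omega))
    have h2 : comb b A x (i + n) = comb b A x (j + n) := h n (by omega)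
    rw [show i + (n + 1) = i + n + 1 by omega, show j + (n + 1) = j + n + 1 by omega,
      cfl_succ b hb, cfl_succ b hb, h2]
    rw [pow_succ]
    linear_combination (b : ℤ) * h1

theorem cfl_near (b : ℕ) {m : ℕ} (A : Fin m → ℤ) (x : Fin m → ℝ) (k : ℕ) :
    |(∑ j, (A j : ℝ) * x j) * (b : ℝ) ^ k - cfl b A x k| ≤ ∑ j, |(A j : ℝ)| := by
  have e : (∑ j, (A j : ℝ) * x j) * (b : ℝ) ^ k - cfl b A x k =
      ∑ j, (A j : ℝ) * (x j * (b : ℝ) ^ k - ⌊x j * (b : ℝ) ^ k⌋) := by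
    unfold cfl
    push_cast
    rw [Finset.sum_mul, ← Finset.sum_sub_distrib]
    exact Finset.sum_congr rfl fun j _ => by ring
  rw [e]
  refine (Finset.abs_sum_le_sum_abs _ _).trans (Finset.sum_le_sum fun j _ => ?_)
  rw [abs_mul]
  refine mul_le_of_le_one_right (abs_nonneg _) ?_
  rw [Int.self_sub_floor, abs_of_nonneg (Int.fract_nonneg _)]
  exact (Int.fract_lt_one _).le

theorem rep (b : ℕ) (hb : 2 ≤ b) {m : ℕ} (A : Fin m → ℤ) (x : Fin m → ℝ)
    (hx : Exp2 (∑ j, (A j : ℝ) * x j)) : Rep (comb b A x) := by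
  intro ε hε
  obtain ⟨ξ, hξ⟩ : ∃ ξ : ℝ, ξ = ∑ j, (A j : ℝ) * x j := ⟨_, rfl⟩
  rw [← hξ] at hx
  obtain ⟨c, hc, hq⟩ := hx ε hε
  obtain ⟨W, hW⟩ : ∃ W : ℝ, W = 2 * ∑ j, |(A j : ℝ)| + 1 := ⟨_, rfl⟩
  have hW0 : 0 < W := by
    rw [hW]
    have : 0 ≤ ∑ j, |(A j : ℝ)| := Finset.sum_nonneg fun _ _ => abs_nonneg _
    linarith
  have hb1 : (1 : ℝ) < b := by exact_mod_cast hb
  have hb0 : (0 : ℝ) < b := by linarith
  have hlog : 0 < Real.log b := Real.log_pos hb1
  refine ⟨(Real.log W - Real.log c) / Real.log b, fun i j n hij hE => ?_⟩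
  have hd := cfl_diff b hb A x hE
  have hd' : (cfl b A x (i + n) : ℝ) - (b : ℝ) ^ n * cfl b A x i =
      cfl b A x (j + n) - (b : ℝ) ^ n * cfl b A x j := by exact_mod_cast hd
  have hi := cfl_near b A x (i + n)
  have hj := cfl_near b A x (j + n)
  rw [← hξ] at hi hj
  obtain ⟨D, hD⟩ : ∃ D : ℝ, D = ((b : ℝ) ^ j - (b : ℝ) ^ i) * ξ -
    ((cfl b A x j - cfl b A x i : ℤ) : ℝ) := ⟨_, rfl⟩
  have h1 : |D| * (b : ℝ) ^ n ≤ W := by
    have h2 : D * (b : ℝ) ^ n = (ξ * (b : ℝ) ^ (j + n) - cfl b A x (j + n)) -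
        (ξ * (b : ℝ) ^ (i + n) - cfl b A x (i + n)) := by
      rw [hD]
      push_cast
      rw [pow_add, pow_add]
      linarith
    have h3 : |D * (b : ℝ) ^ n| ≤ W := by
      rw [h2]
      refine (abs_sub _ _).trans ?_
      rw [hW]
      linarith
    rwa [abs_mul, abs_of_pos (by positivity : (0 : ℝ) < (b : ℝ) ^ n)] at h3
  have hlt : b ^ i < b ^ j := Nat.pow_lt_pow_right hb hij
  have h2 := hq (b ^ j - b ^ i) (by omega) (cfl b A x j - cfl b A x i)
  have hcast : ((b ^ j - b ^ i : ℕ) : ℝ) = (b : ℝ) ^ j - (b : ℝ) ^ i := by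
    rw [Nat.cast_sub hlt.le]; push_cast; ring
  rw [hcast, ← hD] at h2
  have h3 : ((b : ℝ) ^ j - (b : ℝ) ^ i) ^ (1 + ε) ≤ ((b : ℝ) ^ j) ^ (1 + ε) := by
    apply Real.rpow_le_rpow
    · rw [← hcast]; exact Nat.cast_nonneg _
    · have : (0 : ℝ) < (b : ℝ) ^ i := by positivity
      linarith
    · linarith
  have h4 : c ≤ ((b : ℝ) ^ j) ^ (1 + ε) * |D| := h2.trans (mul_le_mul_of_nonneg_right h3 (abs_nonneg _))
  have h5 : c * (b : ℝ) ^ n ≤ ((b : ℝ) ^ j) ^ (1 + ε) * W := by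
    have h6 : c * (b : ℝ) ^ n ≤ ((b : ℝ) ^ j) ^ (1 + ε) * (|D| * (b : ℝ) ^ n) := by
      rw [← mul_assoc]
      exact mul_le_mul_of_nonneg_right h4 (by positivity)
    have h7 : ((b : ℝ) ^ j) ^ (1 + ε) * (|D| * (b : ℝ) ^ n) ≤ ((b : ℝ) ^ j) ^ (1 + ε) * W :=
      mul_le_mul_of_nonneg_left h1 (by positivity)
    linarith
  have h6 := Real.log_le_log (by positivity) h5
  rw [Real.log_mul hc.ne' (by positivity), Real.log_mul (by positivity) hW0.ne', Real.log_pow,
    Real.log_rpow (by positivity), Real.log_pow] at h6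
  have h8 : (n : ℝ) * Real.log b ≤
      ((1 + ε) * j + (Real.log W - Real.log c) / Real.log b) * Real.log b := by
    rw [add_mul, div_mul_cancel₀ _ hlog.ne']
    linarith
  exact le_of_mul_le_mul_right h8 hlog

theorem comb_abs (b : ℕ) (hb : 2 ≤ b) {m : ℕ} (A : Fin m → ℤ) (x : Fin m → ℝ) (i : ℕ) :
    |comb b A x i| ≤ (∑ j, |A j|) * b := by
  unfold comb
  refine (Finset.abs_sum_le_sum_abs _ _).trans ?_
  rw [Finset.sum_mul]
  refine Finset.sum_le_sum fun j _ => ?_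
  rw [abs_mul]
  exact mul_le_mul_of_nonneg_left (digit_abs b hb _ _) (abs_nonneg _)

theorem blocks_map {α β : Type} [Finite α] (w : ℕ → α) (f : α → β) (n : ℕ) :
    blocks (fun i => f (w i)) n ≤ blocks w n := by
  unfold blocks
  have h : (Set.range fun i => fun j : Fin n => f (w (i + j))) =
      (fun u : Fin n → α => fun j => f (u j)) '' (Set.range fun i => fun j : Fin n => w (i + j)) := by
    rw [← Set.range_comp]
    rfl
  rw [h]
  exact Set.ncard_image_le (Set.toFinite _)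

theorem large_comb (b : ℕ) (hb : 2 ≤ b) {m : ℕ} (A : Fin m → ℤ) (x : Fin m → ℝ)
    (hx : Exp2 (∑ j, (A j : ℝ) * x j)) : Large (blocks (comb b A x)) := by
  have hr := rep b hb A x hx
  obtain ⟨B, hB⟩ : ∃ B : ℤ, B = (∑ j, |A j|) * b := ⟨_, rfl⟩
  have hm : ∀ i, comb b A x i ∈ Finset.Icc (-B) B := by
    intro i
    rw [Finset.mem_Icc, ← abs_le, hB]
    exact comb_abs b hb A x i
  obtain ⟨w, hw⟩ : ∃ w : ℕ → Finset.Icc (-B) B, w = fun i => ⟨comb b A x i, hm i⟩ := ⟨_, rfl⟩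
  have hE : ∀ n i j, E w n i j → E (comb b A x) n i j := by
    intro n i j h k hk
    have := congrArg Subtype.val (h k hk)
    rw [hw] at this
    exact this
  have hr' : Rep w := by
    intro ε hε
    obtain ⟨K, hK⟩ := hr ε hε
    exact ⟨K, fun i j n hij h => hK i j n hij (hE n i j h)⟩
  have hp : ∀ n, blocks (comb b A x) n = p w n := by
    intro n
    unfold blocks p
    have hinj : Function.Injective (fun u : Fin n → Finset.Icc (-B) B => fun j => ((u j : _) : ℤ)) := by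
      intro u v h
      funext j
      exact Subtype.ext (congrFun h j)
    rw [← Set.ncard_image_of_injective _ hinj, ← Set.range_comp]
    congr 1
    rw [hw]
    rfl
  refine ⟨fun c hc => ?_, fun c hc => ?_⟩
  · filter_upwards [liminf_of_rep hr' hc] with n hn
    rw [hp n]
    exact hn
  · refine (limsup_of_rep hr' hc).mono fun n hn => ?_
    rw [hp n]
    exact hn

theorem Large.mono {p q : ℕ → ℕ} (h : Large p) (hpq : ∀ n, p n ≤ q n) : Large q := by
  refine ⟨fun c hc => ?_, fun c hc => ?_⟩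
  · filter_upwards [h.1 c hc] with n hn
    exact hn.trans_le (by exact_mod_cast hpq n)
  · exact (h.2 c hc).mono fun n hn => hn.trans_le (by exact_mod_cast hpq n)

theorem pairs (b : ℕ) (hb : 2 ≤ b) (t : ℝ) (r s : ℚ) (hrs : r ≠ s) :
    Large (blocks fun i => digit b (t + r * Real.exp 1) i - digit b (t + s * Real.exp 1) i) ∧
    Large (blocks fun i => (digit b (t + r * Real.exp 1) i, digit b (t + s * Real.exp 1) i)) := by
  obtain ⟨x, hx⟩ : ∃ x : Fin 2 → ℝ, x = ![t + r * Real.exp 1, t + s * Real.exp 1] := ⟨_, rfl⟩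
  have h1 : Large (blocks (comb b ![1, -1] x)) := by
    apply large_comb b hb
    have e : ∑ j, ((![1, -1] : Fin 2 → ℤ) j : ℝ) * x j = ((r - s : ℚ) : ℝ) * Real.exp 1 + (0 : ℚ) := by
      rw [hx, Fin.sum_univ_two]
      simp only [Matrix.cons_val_zero, Matrix.cons_val_one]
      push_cast
      ring
    rw [e]
    exact exp2_lin _ _ (sub_ne_zero.2 hrs)
  have e2 : comb b ![1, -1] x =
      fun i => digit b (t + r * Real.exp 1) i - digit b (t + s * Real.exp 1) i := by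
    funext i
    unfold comb
    rw [hx, Fin.sum_univ_two]
    simp only [Matrix.cons_val_zero, Matrix.cons_val_one]
    ring
  rw [e2] at h1
  refine ⟨h1, h1.mono fun n => ?_⟩
  -- the pairs determine the differences; the pairs take finitely many values
  obtain ⟨u, hu⟩ : ∃ u : ℕ → ℤ × ℤ, u = fun i =>
    (digit b (t + r * Real.exp 1) i, digit b (t + s * Real.exp 1) i) := ⟨_, rfl⟩
  have hmem : ∀ i, u i ∈ Finset.Icc (-(b : ℤ)) b ×ˢ Finset.Icc (-(b : ℤ)) b := by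
    intro i
    rw [hu, Finset.mem_product, Finset.mem_Icc, Finset.mem_Icc, ← abs_le, ← abs_le]
    exact ⟨digit_abs b hb _ _, digit_abs b hb _ _⟩
  obtain ⟨v, hv⟩ : ∃ v : ℕ → (Finset.Icc (-(b : ℤ)) b ×ˢ Finset.Icc (-(b : ℤ)) b : Finset (ℤ × ℤ)),
    v = fun i => ⟨u i, hmem i⟩ := ⟨_, rfl⟩
  have g1 := blocks_map v (fun a => (a : ℤ × ℤ).1 - (a : ℤ × ℤ).2) n
  have g2 : blocks v n = blocks u n := by
    unfold blocks
    have hinj : Function.Injective (fun f : Fin n →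
        (Finset.Icc (-(b : ℤ)) b ×ˢ Finset.Icc (-(b : ℤ)) b : Finset (ℤ × ℤ)) =>
        fun j => ((f j : _) : ℤ × ℤ)) := by
      intro f g h
      funext j
      exact Subtype.ext (congrFun h j)
    rw [← Set.ncard_image_of_injective _ hinj, ← Set.range_comp]
    congr 1
    rw [hv]
    rfl
  rw [g2] at g1
  subst hv
  subst hu
  exact g1

/-- **Blocks of digits.** (1) is the general statement, (2) the one for `t + r e` and `t + s e`, and (3) is the
special case of `π + e` and `π - e`. -/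
theorem result :
    (∀ b : ℕ, 2 ≤ b → ∀ (m : ℕ) (A : Fin m → ℤ) (x : Fin m → ℝ) (r s : ℚ), r ≠ 0 →
      ∑ j, (A j : ℝ) * x j = r * Real.exp 1 + s →
      Large (blocks fun i => ∑ j, A j * digit b (x j) i)) ∧
    (∀ b : ℕ, 2 ≤ b → ∀ (t : ℝ) (r s : ℚ), r ≠ s →
      Large (blocks fun i => digit b (t + r * Real.exp 1) i - digit b (t + s * Real.exp 1) i) ∧
      Large (blocks fun i => (digit b (t + r * Real.exp 1) i, digit b (t + s * Real.exp 1) i))) ∧
    (∀ b : ℕ, 2 ≤ b →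
      Large (blocks fun i =>
        digit b (Real.pi + Real.exp 1) i - digit b (Real.pi - Real.exp 1) i) ∧
      Large (blocks fun i =>
        (digit b (Real.pi + Real.exp 1) i, digit b (Real.pi - Real.exp 1) i))) := by
  refine ⟨fun b hb m A x r s hr h => ?_, fun b hb t r s hrs => pairs b hb t r s hrs, fun b hb => ?_⟩
  · apply large_comb b hb
    rw [h]
    exact exp2_lin r s hr
  · have h := pairs b hb Real.pi 1 (-1) (by norm_num)
    have e1 : Real.pi + ((1 : ℚ) : ℝ) * Real.exp 1 = Real.pi + Real.exp 1 := by push_cast; ring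
    have e2 : Real.pi + ((-1 : ℚ) : ℝ) * Real.exp 1 = Real.pi - Real.exp 1 := by push_cast; ring
    rw [e1, e2] at h
    exact h

end Pool.Agent.Results.MP_363d4d_nt.JointBlocks
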