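import Mathlib
import Pool.Agent.Results.MP_a49cf6_nt.DigitRecurrences

/-!
# Linear recurrences for the digits of `π + e` and `π - e`

The linear complexity `N(x; L)` of the first `L` digits of `x` in base `b` is the least order of a linear
recurrence over `ℚ` satisfied by these digits; `x` is rational if and only if it is bounded for `L → ∞`, and it is
about `L / 2` for random digits. We prove, with constants independent of the base `b` and of the real number `t`: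

(1) for rational numbers `r ≠ s` and `η > 0`: `L ≤ (2 + η) (N + C √(N log N))` with
`N = N(t + r e; L) + N(t + s e; L)`, so this sum is at least `(1 / 2 - ε) L`; and the joint linear complexity of
`t + r e` and `t + s e` with errors in `k` places allowed is at least
`(1 / (2 + 2 ^ 2 + … + 2 ^ (k + 1)) - ε) L`;

(2) for every finite set `R` of rational numbers, every base and every large `L`, all the numbers
`t + r e`, `r ∈ R`, except at most one, have linear complexity at least `(1 / 4 - ε) L`;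

(3) in particular this holds for `π + e` and `π - e`;

(4) for every `μ > 2` there are at least `log M / log μ - C` indices `i ≤ M` such that the digits number `i` and
`i + 1` of `t + r e` or those of `t + s e` are different.

The definitions and the treatment of digit sequences are those of the starting file
`Pool/Agent/Results/MP_a49cf6_nt/DigitRecurrences.lean` (for `t + e`, `t e`, with `3` instead of `2`).
-/

set_option autoImplicit false

namespace Pool.Agent.Results.MP_363d4d_nt.LinearComplexity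

open Finset Polynomial
open Pool.Agent.Results.MP_a49cf6_nt.DigitRecurrences
open Pool.Agent.W47.JL (Meas)

theorem meas_mono {J : ℕ} {x : Fin J → ℝ} {μ c0 c1 : ℝ} (h : Meas J x μ c1 0) (hc : c0 ≤ c1) :
    Meas J x μ c0 0 := by
  intro q hq p
  obtain ⟨j, hj⟩ := h q hq p
  exact ⟨j, hc.trans hj⟩

/-- simultaneous measure of irrationality of `t + r e` and `t + s e`, uniform in `t` -/
theorem pair_meas (r s : ℚ) (hrs : r ≠ s) (η : ℝ) (hη : 0 < η) : ∃ c0 : ℝ, 0 < c0 ∧ ∀ t : ℝ,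
    Meas 2 ![t + r * Real.exp 1, t + s * Real.exp 1] (2 + η) c0 0 := by
  obtain ⟨c1, hc1, hm⟩ := Pool.Agent.W472.AC.e_measP 1 η hη
  obtain ⟨a, ha⟩ : ∃ a : ℚ, a = r - s := ⟨_, rfl⟩
  have ha0 : a ≠ 0 := by rw [ha]; exact sub_ne_zero.2 hrs
  obtain ⟨A, hA⟩ : ∃ A : ℤ, A = a.num := ⟨_, rfl⟩
  obtain ⟨B, hB⟩ : ∃ B : ℕ, B = a.den := ⟨_, rfl⟩
  have hA0 : A ≠ 0 := by rw [hA]; exact Rat.num_ne_zero.2 ha0
  have hB1 : (1 : ℝ) ≤ B := by
    rw [hB]; exact_mod_cast a.den_pos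
  have hAB : (B : ℝ) * a = A := by
    rw [hB, hA, mul_comm]; exact_mod_cast Rat.mul_den_eq_num a
  have he1 : 1 ≤ Real.exp 1 := Real.one_le_exp zero_le_one
  obtain ⟨M, hM⟩ : ∃ M : ℝ, M = |(A : ℝ)| * Real.exp 1 + 2 * B := ⟨_, rfl⟩
  have hA1 : (1 : ℝ) ≤ |(A : ℝ)| := by exact_mod_cast Int.one_le_abs hA0
  have hM1 : 1 ≤ M := by rw [hM]; nlinarith
  have hMA : |(A : ℝ)| ≤ M := by rw [hM]; nlinarith
  have hMp : 0 < M ^ (1 + η) := Real.rpow_pos_of_pos (by linarith) _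
  obtain ⟨c0, hc0⟩ : ∃ c0 : ℝ, c0 = min 1 (c1 / (4 * B * M ^ (1 + η))) := ⟨_, rfl⟩
  have hB0 : (0 : ℝ) < B := by linarith
  have hc00 : 0 < c0 := by
    rw [hc0]
    exact lt_min one_pos (by positivity)
  refine ⟨c0, hc00, fun t => ?_⟩
  intro q hq p
  by_contra hcon
  push Not at hcon
  have hqR : (1 : ℝ) ≤ q := by exact_mod_cast hq
  have hq0 : (0 : ℝ) < q := by linarith
  have hexp : 2 + η - 1 = 1 + η := by ring
  simp only [Real.rpow_zero, mul_one, hexp] at hcon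
  obtain ⟨Q, hQ⟩ : ∃ Q : ℝ, Q = (q : ℝ) ^ (1 + η) := ⟨_, rfl⟩
  have hQ1 : 1 ≤ Q := by
    rw [hQ]
    exact Real.one_le_rpow hqR (by positivity)
  have hδ : ∀ j, |q * (![t + r * Real.exp 1, t + s * Real.exp 1] : Fin 2 → ℝ) j - p j| < c0 / Q := by
    intro j
    rw [lt_div_iff₀ (by linarith), mul_comm]
    have := hcon j
    rwa [← hQ] at this
  have h0 : |q * (t + r * Real.exp 1) - p 0| < c0 / Q := hδ 0
  have h1 : |q * (t + s * Real.exp 1) - p 1| < c0 / Q := hδ 1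
  have hd : |q * (a * Real.exp 1) - (p 0 - p 1)| < 2 * (c0 / Q) := by
    have e : q * (a * Real.exp 1) - ((p 0 : ℝ) - p 1) =
        (q * (t + r * Real.exp 1) - p 0) - (q * (t + s * Real.exp 1) - p 1) := by
      rw [ha]; push_cast; ring
    rw [e]
    refine (abs_sub _ _).trans_lt ?_
    linarith
  have hd2 : |(A : ℝ) * q * Real.exp 1 - B * (p 0 - p 1)| < B * (2 * (c0 / Q)) := by
    have e : (A : ℝ) * q * Real.exp 1 - B * (p 0 - p 1) =
        B * (q * (a * Real.exp 1) - (p 0 - p 1)) := by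
      rw [← hAB]; ring
    rw [e, abs_mul, abs_of_pos hB0]
    exact mul_lt_mul_of_pos_left hd hB0
  have hc0le1 : c0 ≤ 1 := by rw [hc0]; exact min_le_left _ _
  have hcQ : c0 / Q ≤ 1 := (div_le_self hc00.le hQ1).trans hc0le1
  have hBp : |(B : ℝ) * (p 0 - p 1)| ≤ q * M := by
    have e : (B : ℝ) * (p 0 - p 1) = (A : ℝ) * q * Real.exp 1 -
        ((A : ℝ) * q * Real.exp 1 - B * (p 0 - p 1)) := by ring
    rw [e]
    refine (abs_sub _ _).trans ?_
    rw [abs_mul, abs_mul, abs_of_pos hq0, abs_of_pos (Real.exp_pos 1)]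
    have h3 : B * (2 * (c0 / Q)) ≤ 2 * B := by nlinarith
    have h4 : |(A : ℝ) * q * Real.exp 1 - B * (p 0 - p 1)| ≤ 2 * B := hd2.le.trans h3
    have h5 : 2 * (B : ℝ) ≤ q * (2 * B) := by nlinarith
    rw [hM]
    nlinarith
  obtain ⟨P, hP⟩ : ∃ P : ℤ[X], P = C (A * q) * X - C ((B : ℤ) * (p 0 - p 1)) := ⟨_, rfl⟩
  have hP1 : P.coeff 1 = A * q := by
    rw [hP, coeff_sub, coeff_C_mul_X, if_pos rfl, coeff_C, if_neg one_ne_zero, sub_zero]
  have hP00 : P.coeff 0 = -((B : ℤ) * (p 0 - p 1)) := by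
    rw [hP, coeff_sub, coeff_C_mul_X, if_neg zero_ne_one, coeff_C, if_pos rfl, zero_sub]
  have hPd : P.natDegree ≤ 1 := by
    rw [hP]
    refine (natDegree_sub_le _ _).trans (max_le ((natDegree_C_mul_le _ _).trans natDegree_X_le) ?_)
    rw [natDegree_C]; omega
  have hP0 : P ≠ 0 := by
    intro h
    rw [h, coeff_zero] at hP1
    have h3 : (q : ℤ) ≠ 0 := by exact_mod_cast (by omega : q ≠ 0)
    exact mul_ne_zero hA0 h3 hP1.symm
  have hPH : ∀ i, |((P.coeff i : ℤ) : ℝ)| ≤ q * M := by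
    intro i
    rcases i with _ | i
    · rw [hP00]
      push_cast
      rw [abs_neg]
      exact hBp
    · rcases i with _ | i
      · rw [hP1]
        push_cast
        rw [abs_mul, abs_of_pos hq0]
        nlinarith
      · rw [coeff_eq_zero_of_natDegree_lt (by omega)]
        simp only [Int.cast_zero, abs_zero]
        positivity
  have hval : aeval (Real.exp 1) P = (A : ℝ) * q * Real.exp 1 - B * (p 0 - p 1) := by
    rw [hP]
    simp [-Real.exp_one_pow]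
  have hqM : 1 ≤ (q : ℝ) * M := by nlinarith
  have hfin := hm P hP0 hPd (q * M) hqM hPH
  rw [hval] at hfin
  have h11' : ((1 : ℕ) : ℝ) + η = 1 + η := by norm_num
  rw [h11', Real.mul_rpow hq0.le (by linarith), ← hQ] at hfin
  have h9 : c1 ≤ Q * M ^ (1 + η) * (B * (2 * (c0 / Q))) :=
    hfin.trans (mul_le_mul_of_nonneg_left hd2.le (by positivity))
  have h10 : Q * M ^ (1 + η) * (B * (2 * (c0 / Q))) = 2 * B * M ^ (1 + η) * c0 := by
    field_simp
  rw [h10] at h9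
  have h11 : c0 ≤ c1 / (4 * B * M ^ (1 + η)) := by rw [hc0]; exact min_le_right _ _
  rw [le_div_iff₀ (by positivity)] at h11
  nlinarith

/-- the same for all pairs from a finite set -/
theorem set_meas (R : Finset ℚ) (η : ℝ) (hη : 0 < η) : ∃ c0 : ℝ, 0 < c0 ∧ ∀ t : ℝ,
    ∀ r ∈ R, ∀ s ∈ R, r ≠ s → Meas 2 ![t + r * Real.exp 1, t + s * Real.exp 1] (2 + η) c0 0 := by
  classical
  have h : ∀ p : ℚ × ℚ, ∃ c0 : ℝ, 0 < c0 ∧ (p.1 ≠ p.2 → ∀ t : ℝ,
      Meas 2 ![t + p.1 * Real.exp 1, t + p.2 * Real.exp 1] (2 + η) c0 0) := by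
    intro p
    by_cases hp : p.1 = p.2
    · exact ⟨1, one_pos, fun h => absurd hp h⟩
    · obtain ⟨c, hc, h⟩ := pair_meas p.1 p.2 hp η hη
      exact ⟨c, hc, fun _ => h⟩
  choose c hc h using h
  have hmin : ∃ c0 : ℝ, 0 < c0 ∧ ∀ p ∈ R ×ˢ R, c0 ≤ c p := by
    generalize R ×ˢ R = S
    induction S using Finset.induction_on with
    | empty => exact ⟨1, one_pos, by simp⟩
    | insert a S ha ih =>
      obtain ⟨c0, h0, h1⟩ := ih
      refine ⟨min c0 (c a), lt_min h0 (hc a), fun b hb => ?_⟩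
      rcases Finset.mem_insert.1 hb with rfl | hb
      · exact min_le_right _ _
      · exact (min_le_left _ _).trans (h1 b hb)
  obtain ⟨c0, h0, h1⟩ := hmin
  exact ⟨c0, h0, fun t r hr s hs hrs =>
    meas_mono (h (r, s) hrs t) (h1 (r, s) (Finset.mem_product.2 ⟨hr, hs⟩))⟩

/-- `L ≤ (2 + ε) F C N` implies `N ≥ (1 / 2 - ε) L` for large `L` -/
theorem key (C ε : ℝ) (hC : 0 < C) (hε : 0 < ε) : ∃ L₀ : ℕ, ∀ L N : ℕ, L₀ ≤ L →
    (L : ℝ) ≤ (2 + ε) * F C N → (1 / 2 - ε) * L ≤ N := by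
  obtain ⟨K, hK0, hK⟩ := F_linear C ε hC hε
  obtain ⟨L₀, hL₀⟩ := exists_nat_gt (9 * (2 + ε) * K / ε + 1 / ε)
  refine ⟨L₀, fun L N hL h => ?_⟩
  have h3 := hK N
  have h4 : (L : ℝ) ≤ (2 + ε) * ((1 + ε) * N + K) :=
    h.trans (mul_le_mul_of_nonneg_left h3 (by linarith))
  have hLR : (L₀ : ℝ) ≤ L := by exact_mod_cast hL
  have h5 : 9 * (2 + ε) * K / ε + 1 / ε < L := hL₀.trans_le hLR
  rw [← add_div, div_lt_iff₀ hε] at h5
  have hN0 : (0 : ℝ) ≤ N := Nat.cast_nonneg N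
  have hL0 : (0 : ℝ) ≤ L := Nat.cast_nonneg L
  by_contra hcon
  push Not at hcon
  rcases le_or_gt (1 / 2) ε with h6 | h6
  · have h7 : (1 / 2 - ε) * L ≤ 0 := mul_nonpos_of_nonpos_of_nonneg (by linarith) hL0
    linarith
  · have h7 : (2 + ε) * ((1 + ε) * N + K) ≤
        (2 + ε) * (1 + ε) * ((1 / 2 - ε) * L) + (2 + ε) * K := by
      have h8 := mul_le_mul_of_nonneg_left hcon.le (by positivity : 0 ≤ (2 + ε) * (1 + ε))
      linarith
    have h8 : (2 + ε) * (1 + ε) * ((1 / 2 - ε) * L) ≤ (1 - ε / 2) * L := by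
      have h9 : (2 + ε) * (1 + ε) * (1 / 2 - ε) ≤ 1 - ε / 2 := by nlinarith [sq_nonneg ε]
      have h10 := mul_le_mul_of_nonneg_right h9 hL0
      linarith
    nlinarith [mul_nonneg (by linarith : 0 ≤ 2 + ε) hK0]

/-- **Main theorem.** Let `F C m = m + C √((m + 1) log (m + 2))`. The statements (1) to (4) of the beginning of the
file. -/
theorem result :
    (∀ (R : Finset ℚ) (η : ℝ), 0 < η → ∃ C : ℝ, ∀ t : ℝ, ∀ r ∈ R, ∀ s ∈ R, r ≠ s →
      ∀ b : ℕ, 2 ≤ b → ∀ L : ℕ,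
      (L : ℝ) ≤ (2 + η) * F C (complexity b (t + r * Real.exp 1) L +
        complexity b (t + s * Real.exp 1) L) ∧
      ∀ k : ℕ, (L : ℝ) ≤ (∑ i ∈ range (k + 1), (2 + η) ^ (i + 1)) *
        F C (jointComplexity b ![t + r * Real.exp 1, t + s * Real.exp 1] k L)) ∧
    (∀ (R : Finset ℚ) (ε : ℝ), 0 < ε → ∃ L₀ : ℕ, ∀ (t : ℝ) (b : ℕ), 2 ≤ b → ∀ L : ℕ, L₀ ≤ L →
      (∀ r ∈ R, ∀ s ∈ R, r ≠ s → (1 / 2 - ε) * L ≤
        complexity b (t + r * Real.exp 1) L + complexity b (t + s * Real.exp 1) L) ∧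
      (R.filter fun r : ℚ => (complexity b (t + r * Real.exp 1) L : ℝ) < (1 / 4 - ε) * L).card ≤ 1) ∧
    (∀ ε : ℝ, 0 < ε → ∃ L₀ : ℕ, ∀ b : ℕ, 2 ≤ b → ∀ L : ℕ, L₀ ≤ L →
      ((1 / 4 - ε) * L ≤ complexity b (Real.pi + Real.exp 1) L ∨
        (1 / 4 - ε) * L ≤ complexity b (Real.pi - Real.exp 1) L) ∧
      (1 / 2 - ε) * L ≤
        complexity b (Real.pi + Real.exp 1) L + complexity b (Real.pi - Real.exp 1) L ∧
      (1 / 2 - ε) * L ≤ jointComplexity b ![Real.pi + Real.exp 1, Real.pi - Real.exp 1] 0 L) ∧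
    (∀ (R : Finset ℚ) (μ : ℝ), 2 < μ → ∃ C : ℝ, ∀ t : ℝ, ∀ r ∈ R, ∀ s ∈ R, r ≠ s → ∀ b : ℕ, 2 ≤ b →
      ∀ M : ℕ, 1 ≤ M → Real.log M / Real.log μ - C ≤
        changes b (t + r * Real.exp 1) (t + s * Real.exp 1) M) := by
  have h1 : ∀ (R : Finset ℚ) (η : ℝ), 0 < η → ∃ C : ℝ, 0 < C ∧ ∀ t : ℝ, ∀ r ∈ R, ∀ s ∈ R, r ≠ s →
      ∀ b : ℕ, 2 ≤ b → ∀ L : ℕ,
      (L : ℝ) ≤ (2 + η) * F C (complexity b (t + r * Real.exp 1) L +
        complexity b (t + s * Real.exp 1) L) ∧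
      ∀ k : ℕ, (L : ℝ) ≤ (∑ i ∈ range (k + 1), (2 + η) ^ (i + 1)) *
        F C (jointComplexity b ![t + r * Real.exp 1, t + s * Real.exp 1] k L) := by
    intro R η hη
    obtain ⟨c0, hc0, hm⟩ := set_meas R η hη
    obtain ⟨C, hC0, hC⟩ := general (2 + η) c0 (by linarith) hc0
    refine ⟨C, hC0, fun t r hr s hs hrs b hb L => ?_⟩
    obtain ⟨h3, h4⟩ := hC 2 _ (hm t r hr s hs hrs) b hb L
    refine ⟨?_, h3⟩
    rw [Fin.sum_univ_two] at h4
    simpa only [Matrix.cons_val_zero, Matrix.cons_val_one] using h4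
  have h2 : ∀ (R : Finset ℚ) (ε : ℝ), 0 < ε → ∃ L₀ : ℕ, ∀ (t : ℝ) (b : ℕ), 2 ≤ b → ∀ L : ℕ,
      L₀ ≤ L → ∀ r ∈ R, ∀ s ∈ R, r ≠ s → ((1 / 2 - ε) * L ≤
        complexity b (t + r * Real.exp 1) L + complexity b (t + s * Real.exp 1) L ∧
      (1 / 2 - ε) * L ≤ jointComplexity b ![t + r * Real.exp 1, t + s * Real.exp 1] 0 L) := by
    intro R ε hε
    obtain ⟨C, hC0, hC⟩ := h1 R ε hε
    obtain ⟨L₀, hL₀⟩ := key C ε hC0 hε
    refine ⟨L₀, fun t b hb L hL r hr s hs hrs => ?_⟩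
    obtain ⟨h3, h4⟩ := hC t r hr s hs hrs b hb L
    have h5 := h4 0
    have h0 : ∑ i ∈ range (0 + 1), (2 + ε) ^ (i + 1) = 2 + ε := by simp
    rw [h0] at h5
    have h6 := hL₀ L _ hL h3
    push_cast at h6
    exact ⟨h6, hL₀ L _ hL h5⟩
  refine ⟨fun R η hη => ?_, fun R ε hε => ?_, fun ε hε => ?_, fun R μ hμ => ?_⟩
  · obtain ⟨C, _, hC⟩ := h1 R η hη
    exact ⟨C, hC⟩
  · obtain ⟨L₀, hL₀⟩ := h2 R ε hε
    refine ⟨L₀, fun t b hb L hL => ⟨fun r hr s hs hrs => (hL₀ t b hb L hL r hr s hs hrs).1, ?_⟩⟩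
    rw [Finset.card_le_one]
    intro r hr s hs
    rw [mem_filter] at hr hs
    by_contra hrs
    have h3 := (hL₀ t b hb L hL r hr.1 s hs.1 hrs).1
    have h4 := hr.2
    have h5 := hs.2
    have hL0 : (0 : ℝ) ≤ L := Nat.cast_nonneg L
    nlinarith
  · obtain ⟨L₀, hL₀⟩ := h2 {1, -1} ε hε
    refine ⟨L₀, fun b hb L hL => ?_⟩
    have h3 := hL₀ Real.pi b hb L hL 1 (by simp) (-1) (by simp) (by norm_num)
    have e1 : Real.pi + ((1 : ℚ) : ℝ) * Real.exp 1 = Real.pi + Real.exp 1 := by push_cast; ring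
    have e2 : Real.pi + ((-1 : ℚ) : ℝ) * Real.exp 1 = Real.pi - Real.exp 1 := by push_cast; ring
    rw [e1, e2] at h3
    refine ⟨?_, h3.1, h3.2⟩
    by_contra hcon
    push Not at hcon
    have hL0 : (0 : ℝ) ≤ L := Nat.cast_nonneg L
    nlinarith [hcon.1, hcon.2, h3.1]
  · obtain ⟨c0, hc0, hm⟩ := set_meas R ((μ - 2) / 2) (by linarith)
    obtain ⟨C, hC⟩ := many_changes (2 + (μ - 2) / 2) c0 (by linarith) hc0 μ (by linarith)
    refine ⟨C, fun t r hr s hs hrs b hb M hM => ?_⟩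
    have h := hC _ (hm t r hr s hs hrs) b hb M hM
    simpa only [Matrix.cons_val_zero, Matrix.cons_val_one] using h

end Pool.Agent.Results.MP_363d4d_nt.LinearComplexity
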